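import Pool.Agent.PC70.Main

set_option autoImplicit false

/-!
# Path covers of bipartite cubic graphs of large girth

Every bipartite cubic graph of girth `g` on `n` vertices has a spanning linear forest with at most
`6000 n log g / g²` components.
-/

namespace Pool.Agent.Results.MP_f325cf_co.BipartitePathCover

/-- The vertex set of the finite graph `G` can be partitioned into at most `x` paths of `G`: there
is a spanning subgraph `F` of `G` that is acyclic and has all degrees at most two (so that its
components are paths) and has at most `x` components. -/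
def HasPathCover {V : Type} (G : SimpleGraph V) (x : ℝ) : Prop :=
  ∃ F : SimpleGraph V, F ≤ G ∧ F.IsAcyclic ∧ (∀ v, (F.neighborSet v).ncard ≤ 2) ∧
    (Nat.card F.ConnectedComponent : ℝ) ≤ x

/-- Path covers of bipartite cubic graphs of girth `g`, in particular of all bipartite cages. -/
theorem result :
    ∀ (V : Type) [Fintype V] [DecidableEq V] [Nonempty V]
      (G : SimpleGraph V) [DecidableRel G.Adj],
      G.IsRegularOfDegree 3 → G.IsBipartite →
      3 ≤ G.girth ∧
      HasPathCover G
        (6000 * (Fintype.card V : ℝ) * Real.log G.girth / (G.girth : ℝ) ^ 2) := by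
  intro V _ _ _ G _ hreg hbip
  have hM : ∃ M : G.Subgraph, M.IsPerfectMatching := PC70.bipartite_matching G hreg hbip
  have h3 : 3 ≤ G.girth := SimpleGraph.three_le_girth (PC70.not_isAcyclic G hreg hM)
  obtain ⟨F, hF1, hF2, hF3, hF4⟩ :=
    (PC70.pathCover_of_matching G hreg hM G.girth h3 (ENat.natCast_toNat_le_self _)).2 hbip
  refine ⟨h3, F, hF1, hF2, hF3, hF4.trans (le_of_eq ?_)⟩
  ring

end Pool.Agent.Results.MP_f325cf_co.BipartitePathCover
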