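import Pool.Agent.HDC77.Main

set_option autoImplicit false

/-!
# Hamiltonian covers of cubic cages

For every `d ≥ 2` every cubic cage of girth `g`, and more generally every connected cubic graph
with a perfect matching, has a `d`-fold cover that has a Hamiltonian cycle; the cover is cubic and
its girth is at least that of the graph.
-/

namespace Pool.Agent.Results.MP_f325cf_co.HamiltonianCovers

/-- The graph `H` on `V × Fin d` is a `d`-fold cover of `G` with the first projection as covering
map: edges of `H` lie over edges of `G`, and for every vertex `p` of `H` and every edge of `G` from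
`p.1` to `w` exactly one vertex over `w` is adjacent to `p`. -/
def IsFoldCover {V : Type} (G : SimpleGraph V) (d : ℕ) (H : SimpleGraph (V × Fin d)) : Prop :=
  (∀ p q, H.Adj p q → G.Adj p.1 q.1) ∧ (∀ p w, G.Adj p.1 w → ∃! j, H.Adj p (w, j))

/-- Hamiltonian `d`-fold covers of cubic cages, and of connected cubic graphs with a perfect
matching, for every `d ≥ 2`. -/
theorem result :
    ∀ (V : Type) [Fintype V] [DecidableEq V] [Nonempty V]
      (G : SimpleGraph V) [DecidableRel G.Adj],
      G.IsRegularOfDegree 3 →
      ((∀ (n : ℕ) (H : SimpleGraph (Fin n)) [DecidableRel H.Adj],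
          H.IsRegularOfDegree 3 → H.girth = G.girth → Fintype.card V ≤ n) ∨
        (G.Connected ∧ ∃ M : G.Subgraph, M.IsPerfectMatching)) →
      3 ≤ G.girth ∧
      ∀ d : ℕ, 2 ≤ d → ∃ H : SimpleGraph (V × Fin d),
        IsFoldCover G d H ∧ (∀ p, (H.neighborSet p).ncard = 3) ∧ G.girth ≤ H.girth ∧
          H.IsHamiltonian := by
  intro V _ _ _ G _ hreg h
  have hM : G.Connected ∧ ∃ M : G.Subgraph, M.IsPerfectMatching := by
    rcases h with hmin | hM
    · exact ⟨HDC77.cage_connected G hreg hmin, PC70.cage_matching G hreg hmin⟩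
    · exact hM
  refine ⟨SimpleGraph.three_le_girth (PC70.not_isAcyclic G hreg hM.2), ?_⟩
  intro d hd
  obtain ⟨k, rfl⟩ : ∃ k, d = k + 2 := ⟨d - 2, by omega⟩
  obtain ⟨H, h1, h2, h3, h4, h5⟩ := HDC77.exists_cover G hreg hM.1 hM.2 k
  exact ⟨H, ⟨h1, h2⟩, h3, h4, h5⟩

end Pool.Agent.Results.MP_f325cf_co.HamiltonianCovers
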