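import Pool.Agent.NM72.Final
import Pool.Agent.PC70.HandC1

set_option autoImplicit false

/-!
# Path covers of cubic graphs of large girth

Every cubic graph of girth `g` on `n` vertices has a spanning linear forest with at most
`300 n exp (- √ (g / log g) / 61000)` components.
-/

namespace Pool.Agent.Results.MP_f325cf_co.LargeGirthPathCover

/-- The vertex set of the finite graph `G` can be partitioned into at most `x` paths of `G`: there
is a spanning subgraph `F` of `G` that is acyclic and has all degrees at most two (so that its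
components are paths) and has at most `x` components. -/
def HasPathCover {V : Type} (G : SimpleGraph V) (x : ℝ) : Prop :=
  ∃ F : SimpleGraph V, F ≤ G ∧ F.IsAcyclic ∧ (∀ v, (F.neighborSet v).ncard ≤ 2) ∧
    (Nat.card F.ConnectedComponent : ℝ) ≤ x

/-- Path covers of cubic graphs, in particular of all cubic cages. -/
theorem result :
    ∀ (V : Type) [Fintype V] [DecidableEq V] [Nonempty V]
      (G : SimpleGraph V) [DecidableRel G.Adj],
      G.IsRegularOfDegree 3 →
      3 ≤ G.girth ∧
      HasPathCover G
        (300 * (Fintype.card V : ℝ) *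
          Real.exp (-(Real.sqrt ((G.girth : ℝ) / Real.log (G.girth : ℝ))) / 61000)) := by
  intro V _ _ _ G _ hreg
  have hc : NM70.Cubic G := by
    intro x
    have h1 : (G.neighborFinset x).card = 3 := by
      rw [SimpleGraph.card_neighborFinset_eq_degree]
      exact hreg x
    obtain ⟨a, b, c, hab, hac, hbc, h2⟩ := Finset.card_eq_three.1 h1
    refine ⟨a, b, c, hab, hac, hbc, fun y => ?_⟩
    rw [← SimpleGraph.mem_neighborFinset, h2]
    simp
  obtain ⟨x⟩ := ‹Nonempty V›
  obtain ⟨a, b, c, -, -, -, h2⟩ := hc x
  have hxa : G.Adj x a := (h2 a).2 (Or.inl rfl)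
  have hna : ¬ G.IsAcyclic := PC70.not_isAcyclic_of_no_leaf G hxa fun v => by
    rw [hreg v]
    norm_num
  have h3 : 3 ≤ G.girth := SimpleGraph.three_le_girth hna
  exact ⟨h3, NM72.main hc G.girth h3 (ENat.natCast_toNat_le_self _)⟩

end Pool.Agent.Results.MP_f325cf_co.LargeGirthPathCover
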